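import Pool.Agent.Lib.MP_b5021c_nt.E.H82.Wc5
import Pool.Agent.Lib.MP_b5021c_nt.K.H25.Bch
import Pool.Agent.Lib.MP_b5021c_nt.B.H70.Mm

/-!
# Board b5, stage 3, row E5_LR5: the loads in class `P(θ)` for real elements
-/

namespace Pool.Agent.B5.E.H82

open Polynomial
open Pool.Agent.MP_b5021c_nt (Eis nz)
open Pool.Agent.B5.H40 (norm_evR uT uT_val add_load exists_normal)
open Pool.Agent.B5.H25.Bch (bcR bcR_inj bcR_T bcR_L evR_bc classP_bc emb_comp)
open Pool.Agent.B5.H70 (evR_T_mul M_T_mul unit_of_norm)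

/-- The cast to the Eisenstein integers. -/
abbrev cE : ℤ →+* Eis := Int.castRingHom Eis

theorem cE_inj : Function.Injective cE := by
  intro a b h
  have h1 := congrArg (Coef.emb : Eis →+* ℂ) h
  have h2 : ∀ n : ℤ, (Coef.emb : Eis →+* ℂ) (cE n) = (n : ℂ) := by
    intro n
    have := congrArg (fun g : ℤ →+* ℂ => g n) emb_comp
    exact this
  rw [h2, h2] at h1
  exact_mod_cast h1

theorem emb_cE (n : ℤ) : Eis.emb (cE n) = (n : ℂ) := by
  have := congrArg (fun g : ℤ →+* ℂ => g n) emb_comp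
  exact this

theorem map_cE (p : ℤ[X]) : (p.map cE).map Eis.emb = p.map (Coef.emb : ℤ →+* ℂ) := by
  rw [Polynomial.map_map]
  congr 1
  exact emb_comp

/-- Class `P` over the integers from class `P` over the Eisenstein integers. -/
theorem classP_down (θ : ℝ) (p : ℤ[X]) (hp : p.coeff 0 ≠ 0)
    (h : ClassP θ (toLaurent (p.map cE) : RO Eis)) : ClassP θ (toLaurent p : RO ℤ) := by
  obtain ⟨hθ, n, q, h1, h2, w, hw, h3⟩ := h
  have hq : q.coeff 0 ≠ 0 := by
    intro h0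
    rw [h0, map_zero, norm_zero] at h2
    exact zero_ne_one h2
  have hp' : (p.map cE).coeff 0 ≠ 0 := by
    rw [coeff_map]
    exact (map_ne_zero_iff cE cE_inj).mpr hp
  have h4 : LaurentPolynomial.T 0 * toLaurent (p.map cE) = LaurentPolynomial.T n * toLaurent q := by
    rw [LaurentPolynomial.T_zero, one_mul, h1]
  obtain ⟨-, rfl⟩ := B5.H09.nf_unique 0 n _ q hp' hq h4
  refine ⟨hθ, 0, p, ?_, ?_, w, hw, ?_⟩
  · rw [LaurentPolynomial.T_zero, one_mul]
  · rw [coeff_map] at h2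
    have h5 : (Coef.emb : Eis →+* ℂ) (cE (p.coeff 0)) = (Coef.emb : ℤ →+* ℂ) (p.coeff 0) :=
      emb_cE _
    rwa [h5] at h2
  · have h5 := map_cE p
    change (p.map cE).map (Coef.emb : Eis →+* ℂ) = _ at h5
    rwa [h5] at h3

/-- Type A over the integers from type A over the Eisenstein integers. -/
theorem typA_down (N : ℝ) (q p : ℤ[X]) (hq : q.coeff 0 ≠ 0)
    (h : TypA N (toLaurent (q.map cE) : RO Eis) (toLaurent (p.map cE))) :
    TypA N (toLaurent q : RO ℤ) (toLaurent p) := by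
  obtain ⟨n, q1, e1, h1, h2, h3, h4, h5⟩ := h
  have hq1 : q1.coeff 0 ≠ 0 := by
    intro h0
    rw [h0, map_zero, norm_zero] at h3
    exact zero_ne_one h3
  have hq' : (q.map cE).coeff 0 ≠ 0 := by
    rw [coeff_map]
    exact (map_ne_zero_iff cE cE_inj).mpr hq
  have h6 : LaurentPolynomial.T 0 * toLaurent (q.map cE) = LaurentPolynomial.T n * toLaurent q1 := by
    rw [LaurentPolynomial.T_zero, one_mul, h1]
  obtain ⟨rfl, rfl⟩ := B5.H09.nf_unique 0 n _ q1 hq' hq1 h6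
  have h7 : p.map cE = X * e1 := by
    apply toLaurent_injective
    rw [h2, map_mul, toLaurent_X, zero_add]
  have h8 : p.coeff 0 = 0 := by
    apply cE_inj
    rw [map_zero, ← coeff_map, h7, coeff_X_mul_zero]
  obtain ⟨g, rfl⟩ := X_dvd_iff.mpr h8
  have h9 : g.map cE = e1 := by
    rw [Polynomial.map_mul, map_X] at h7
    exact mul_left_cancel₀ X_ne_zero h7
  refine ⟨0, q, g, ?_, ?_, ?_, ?_, ?_⟩
  · rw [LaurentPolynomial.T_zero, one_mul]
  · rw [map_mul, toLaurent_X, zero_add]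
  · rw [coeff_map] at h3
    have h5 : (Coef.emb : Eis →+* ℂ) (cE (q.coeff 0)) = (Coef.emb : ℤ →+* ℂ) (q.coeff 0) :=
      emb_cE _
    rwa [h5] at h3
  · rw [← h9, coeff_map] at h4
    have h5 : (Coef.emb : Eis →+* ℂ) (cE (g.coeff 0)) = (Coef.emb : ℤ →+* ℂ) (g.coeff 0) :=
      emb_cE _
    rwa [h5] at h4
  · intro z hz
    have h10 := h5 z hz
    rw [← h9] at h10
    have h11 := map_cE g
    change (g.map cE).map (Coef.emb : Eis →+* ℂ) = _ at h11
    rwa [h11] at h10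

/-- The value at the conjugate point. -/
theorem eval_conj (p : ℤ[X]) (z : ℂ) :
    (starRingEnd ℂ) ((p.map (Coef.emb : ℤ →+* ℂ)).eval z) =
      (p.map (Coef.emb : ℤ →+* ℂ)).eval ((starRingEnd ℂ) z) := by
  rw [eval_map, eval_map, hom_eval₂]
  congr 1
  exact RingHom.ext_int _ _

/-- The image of an integral unit. -/
theorem exists_uE (v : ℤˣ) : ∃ u : Eisˣ, (u : Eis) = cE (v : ℤ) ∧ Eis.emb (u : Eis) = ((v : ℤ) : ℂ) := by
  refine ⟨Units.map cE.toMonoidHom v, rfl, ?_⟩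
  exact emb_cE _

/-- The sign of a real number. -/
theorem exists_sign (y : ℂ) (hy : y.im = 0) : ∃ v : ℤˣ, ((v : ℤ) : ℂ) * y = (‖y‖ : ℂ) := by
  have h1 : y = ((y.re : ℝ) : ℂ) := by
    apply Complex.ext
    · simp
    · simp [hy]
  rcases le_or_gt 0 y.re with h | h
  · refine ⟨1, ?_⟩
    rw [h1, Complex.norm_real, Real.norm_eq_abs, abs_of_nonneg h]
    simp
  · refine ⟨-1, ?_⟩
    rw [h1, Complex.norm_real, Real.norm_eq_abs, abs_of_neg h]
    simp

/-- The result of a load. -/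
theorem out5 {O : Type} [CommRing O] [Coef O] (n m : ℤ) (q f : O[X]) (v : Oˣ) (k : ℕ) :
    ((uT v (n - m + k) : (RO O)ˣ) : RO O) * (LaurentPolynomial.T m * toLaurent f) =
      LaurentPolynomial.T n * toLaurent (X ^ k * (C (v : O) * f)) ∧
    LaurentPolynomial.T n * toLaurent q +
      ((uT v (n - m + k) : (RO O)ˣ) : RO O) * (LaurentPolynomial.T m * toLaurent f) =
      LaurentPolynomial.T n * toLaurent (q + X ^ k * (C (v : O) * f)) := by
  have h0 : C (v : O) * X ^ k * f = X ^ k * (C (v : O) * f) := by ring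
  have h1 := add_load q f n m v k
  have h2 := add_load 0 f n m v k
  rw [map_zero, mul_zero, zero_add, zero_add, h0] at h2
  rw [h0] at h1
  exact ⟨h2, h1⟩

/-- The data over the integers. -/
theorem data5 (hPda : PdaS) (θ : ℝ) (Q F : RO ℤ) (hQ : ClassP θ Q) (hF : F ≠ 0)
    (hnz : ∀ z : Circle, evR z Q ≠ 0) (hle : ∀ z : Circle, ‖evR z F‖ ≤ ‖evR z Q‖)
    (hne : ∃ z : Circle, ‖evR z F‖ ≠ ‖evR z Q‖) :
    ∃ (n m : ℤ) (q f : ℤ[X]) (s r : ℂ[X]) (T c : ℂ),
      Q = LaurentPolynomial.T n * toLaurent q ∧ F = LaurentPolynomial.T m * toLaurent f ∧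
        PDat θ (q.map cE) (f.map cE) s r T c := by
  obtain ⟨n, m, q, f, s, r, T, c, h1, h2, hd⟩ := hPda θ (bcR Q) (bcR F) (classP_bc hQ)
    ((map_ne_zero_iff bcR bcR_inj).mpr hF) (fun z => by rw [evR_bc]; exact hnz z)
    (fun z => by rw [evR_bc, evR_bc]; exact hle z)
    (by obtain ⟨z, hz⟩ := hne; exact ⟨z, by rw [evR_bc, evR_bc]; exact hz⟩)
  have hQ0 : Q ≠ 0 := by
    rintro rfl
    exact hnz 1 (map_zero _)
  obtain ⟨n0, q0, rfl, hq0⟩ := exists_normal Q hQ0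
  obtain ⟨m0, f0, rfl, hf0⟩ := exists_normal F hF
  have hq : q.coeff 0 ≠ 0 := by
    intro h0
    have := hd.q0
    rw [h0, map_zero, norm_zero] at this
    exact zero_ne_one this
  rw [map_mul, bcR_T, bcR_L] at h1 h2
  obtain ⟨rfl, rfl⟩ := B5.H09.nf_unique n0 n _ q (by
    rw [coeff_map]; exact (map_ne_zero_iff cE cE_inj).mpr hq0) hq h1
  obtain ⟨rfl, rfl⟩ := B5.H09.nf_unique m0 m _ f (by
    rw [coeff_map]; exact (map_ne_zero_iff cE cE_inj).mpr hf0) hd.f0 h2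
  exact ⟨n0, m0, q0, f0, s, r, T, c, rfl, rfl, hd⟩

/-- For real elements `T` and `c` are real. -/
theorem real5 (θ : ℝ) (q f : ℤ[X]) (s r : ℂ[X]) (T c : ℂ)
    (hd : PDat θ (q.map cE) (f.map cE) s r T c) : T.im = 0 ∧ c.im = 0 := by
  have hθ0 : 0 < θ := by linarith [hd.th]
  have hT0 : T ≠ 0 := by
    intro h0
    have := hd.nT
    rw [h0, norm_zero] at this
    linarith
  have hmem : T⁻¹ ∈ (((q.map cE).map Eis.emb)).roots.filter (fun x => ‖x‖ < 1) := by
    rw [hd.root]; exact Multiset.mem_singleton_self _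
  rw [Multiset.mem_filter] at hmem
  have hq := hd.qs
  have hf := hd.fs
  rw [map_cE] at hmem hq
  rw [map_cE] at hf
  have hroot := (mem_roots'.mp hmem.1)
  have hT1 : (starRingEnd ℂ) T⁻¹ = T⁻¹ := by
    have h1 : (starRingEnd ℂ) T⁻¹ ∈ (((q.map cE).map Eis.emb)).roots.filter (fun x => ‖x‖ < 1) := by
      rw [Multiset.mem_filter, map_cE]
      refine ⟨mem_roots'.mpr ⟨hroot.1, ?_⟩, ?_⟩
      · have h2 := eval_conj q T⁻¹
        rw [hroot.2, map_zero] at h2
        exact h2.symm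
      · rw [Complex.norm_conj]; exact hmem.2
    rw [hd.root, Multiset.mem_singleton] at h1
    exact h1
  have hTc : (starRingEnd ℂ) T = T := by
    rw [map_inv₀] at hT1
    exact inv_injective hT1
  have hs1 : s.eval T⁻¹ ≠ 0 := hd.s0 _ hmem.2.le
  -- `s(1/T)` is real
  have hder : (derivative (q.map (Coef.emb : ℤ →+* ℂ))).eval T⁻¹ = -(T * s.eval T⁻¹) := by
    rw [hq, derivative_mul]
    simp [hT0]
  have hs2 : (starRingEnd ℂ) (s.eval T⁻¹) = s.eval T⁻¹ := by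
    have h1 := eval_conj (derivative q) T⁻¹
    rw [← derivative_map, hder, hT1, hder, map_neg, map_mul, hTc] at h1
    exact mul_left_cancel₀ hT0 (neg_injective h1)
  have hfe : (f.map (Coef.emb : ℤ →+* ℂ)).eval T⁻¹ = c * s.eval T⁻¹ := by
    rw [hf]
    simp [hT0]
  have hcc : (starRingEnd ℂ) c = c := by
    have h1 := eval_conj f T⁻¹
    rw [hT1, hfe, map_mul, hs2] at h1
    exact mul_right_cancel₀ hs1 h1
  exact ⟨Complex.conj_eq_iff_im.mp hTc, Complex.conj_eq_iff_im.mp hcc⟩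

/-- The Mahler measure is at least the constant coefficient. -/
theorem M_ge (hA6 : A6S) (m : ℤ) (f : ℤ[X]) (hf : f.coeff 0 ≠ 0) :
    ‖((f.coeff 0 : ℤ) : ℂ)‖ ≤ M (LaurentPolynomial.T m * toLaurent f : RO ℤ) := by
  have hf0 : f ≠ 0 := by
    rintro rfl
    exact hf (coeff_zero 0)
  rw [M_T_mul m f hf0]
  have h1 := hA6 (f.map (Coef.emb : ℤ →+* ℂ))
  have h2 : (f.map (Coef.emb : ℤ →+* ℂ)).coeff 0 ≠ 0 := by
    rw [coeff_map]
    exact (map_ne_zero_iff _ Pool.Agent.B5.emb_inj).mpr hf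
  have h3 : (f.map (Coef.emb : ℤ →+* ℂ)).trailingCoeff = ((f.coeff 0 : ℤ) : ℂ) := by
    rw [trailingCoeff, natTrailingDegree_eq_zero_of_constantCoeff_ne_zero, coeff_map]
    · rfl
    · exact h2
  rwa [h3] at h1

/-- Row E5_LR5. -/
theorem lr5 (hPda : PdaS) (hPv : Pv5S) (hLb : Lb5S) (hLc : Lc5S) (hLa : La5S) (hKc : Kc5S)
    (hCa : Ca5S) (hA6 : A6S) : Lr5S := by
  intro θ Q F hθ hQ hF hnz hle hne
  obtain ⟨n, m, q, f, s, r, T, c, rfl, rfl, hd⟩ := data5 hPda θ Q F hQ hF hnz hle hne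
  obtain ⟨hTi, hci⟩ := real5 θ q f s r T c hd
  have hθ0 : 0 < θ := by linarith
  have hq1 : ‖(Coef.emb (q.coeff 0) : ℂ)‖ = 1 := by
    have h1 := hd.q0
    rw [coeff_map, emb_cE] at h1
    exact h1
  have hq0 : q.coeff 0 ≠ 0 := by
    intro h0
    rw [h0, map_zero, norm_zero] at hq1
    exact zero_ne_one hq1
  have hf0 : f.coeff 0 ≠ 0 := by
    intro h0
    apply hd.f0
    rw [coeff_map, h0, map_zero]
  have hs0 : ‖s.eval 0‖ = 1 := by
    have h1 : ((q.map cE).map Eis.emb).eval 0 = s.eval 0 := by rw [hd.qs]; simp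
    rw [← h1, ← coeff_zero_eq_eval_zero, coeff_map]
    exact hd.q0
  have hfe : ((f.coeff 0 : ℤ) : ℂ) = c * s.eval 0 + r.eval 0 := by
    have h1 : ((f.map cE).map Eis.emb).eval 0 = c * s.eval 0 + r.eval 0 := by rw [hd.fs]; simp
    rw [← h1, ← coeff_zero_eq_eval_zero, coeff_map, coeff_map, emb_cE]
  have hrs : ‖r.eval 0‖ ≤ 1 := by rw [← hs0]; exact hd.h0
  have hTconj : (starRingEnd ℂ) T = T := Complex.conj_eq_iff_im.mpr hTi
  have hTre : T = ((T.re : ℝ) : ℂ) := by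
    apply Complex.ext
    · simp
    · simp [hTi]
  have hcre : c = ((c.re : ℝ) : ℂ) := by
    apply Complex.ext
    · simp
    · simp [hci]
  have hs3 : Real.sqrt 3 / 2 ≤ 1 := by
    have : Real.sqrt 3 ≤ 2 := by
      rw [Real.sqrt_le_left (by norm_num)]; norm_num
    linarith
  have hnz1 : nz (q.map (Coef.emb : ℤ →+* ℂ)) = 1 := by
    unfold nz
    rw [← map_cE, hd.root, Multiset.card_singleton]
  -- transfer
  have tr : ∀ (v : ℤˣ) (u : Eisˣ), (u : Eis) = cE (v : ℤ) →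
      C (u : Eis) * f.map cE = (C (v : ℤ) * f).map cE := by
    intro v u h
    rw [Polynomial.map_mul, map_C, h]
  have tq : ∀ (g : ℤ[X]) (k : ℕ), q.map cE + X ^ k * g.map cE = (q + X ^ k * g).map cE := by
    intro g k
    rw [Polynomial.map_add, Polynomial.map_mul, Polynomial.map_pow, map_X]
  have hk0 : ∀ (g : ℤ[X]) (k : ℕ), k ≠ 0 → (q + X ^ k * g).coeff 0 ≠ 0 := by
    intro g k hk
    rw [coeff_add, mul_coeff_zero, coeff_X_pow, if_neg (Ne.symm hk), zero_mul, add_zero]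
    exact hq0
  -- the load of type B
  have hsgn : ∃ v : ℤˣ, ((v : ℤ) : ℂ) * (c * (starRingEnd ℂ) T) = ((‖c‖ * θ : ℝ) : ℂ) := by
    obtain ⟨v, hv⟩ := exists_sign (c * (starRingEnd ℂ) T) (by
      rw [hTconj, hTre, hcre]; simp)
    refine ⟨v, ?_⟩
    rw [hv, norm_mul, Complex.norm_conj, hd.nT]
  obtain ⟨v, hv⟩ := hsgn
  obtain ⟨u, hu1, hu2⟩ := exists_uE v
  have hdv := hPv θ (q.map cE) (f.map cE) s r T c u hd
  have hun : ‖Eis.emb (u : Eis)‖ = 1 := Eis.norm_emb_unit u.isUnit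
  have hcn : ‖Eis.emb (u : Eis) * c‖ = ‖c‖ := by rw [norm_mul, hun, one_mul]
  have hcT : Eis.emb (u : Eis) * c * (starRingEnd ℂ) T =
      (θ : ℂ) * (((‖c‖ : ℝ) : ℂ) + ((0 : ℝ) : ℂ) * Complex.I) := by
    rw [mul_assoc, hu2, hv]
    push_cast
    ring
  obtain ⟨hO1, hO2⟩ := out5 n m q f v 1
  have hB : ∀ t : ℝ, (∃ θ' : ℝ, θ / 3 ≤ θ' ∧ θ' ≤ t ∧
      ClassP θ' (toLaurent (q.map cE + X * (C (u : Eis) * f.map cE)))) →
      Gp θ t (LaurentPolynomial.T n * toLaurent q : RO ℤ) (LaurentPolynomial.T m * toLaurent f)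
        (uT v (n - m + (1 : ℕ))) := by
    rintro t ⟨θ', h1, h2, h3⟩
    refine ⟨θ', h1, h2, ?_⟩
    rw [hO2]
    apply shiftP'
    apply classP_down _ _ (hk0 _ 1 one_ne_zero)
    rw [← tq, ← tr v u hu1, pow_one]
    exact h3
  rcases le_or_gt (6 / 10 * θ) ‖c‖ with hc6 | hc6
  · -- very heavy
    left
    obtain ⟨v2, hv2⟩ := exists_sign (c * (starRingEnd ℂ) T ^ 2) (by
      rw [hTconj, hTre, hcre]
      have : ((c.re : ℝ) : ℂ) * ((T.re : ℝ) : ℂ) ^ 2 = ((c.re * T.re ^ 2 : ℝ) : ℂ) := by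
        push_cast; ring
      rw [this]
      exact Complex.ofReal_im _)
    obtain ⟨u2, hu21, hu22⟩ := exists_uE v2
    have hdv2 := hPv θ (q.map cE) (f.map cE) s r T c u2 hd
    have hun2 : ‖Eis.emb (u2 : Eis)‖ = 1 := Eis.norm_emb_unit u2.isUnit
    have hcn2 : ‖Eis.emb (u2 : Eis) * c‖ = ‖c‖ := by rw [norm_mul, hun2, one_mul]
    obtain ⟨hP1, hP2⟩ := out5 n m q f v2 2
    obtain ⟨θ', h1, h2, h3⟩ := hLc θ (q.map cE) (C (u2 : Eis) * f.map cE) s _ T _ hθ hdv2
      (by rw [hcn2]; exact hc6) (by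
        rw [hcn2, mul_assoc, hu22, hv2, Complex.ofReal_re, norm_mul, norm_pow, Complex.norm_conj,
          hd.nT]
        have : 0 ≤ ‖c‖ * θ ^ 2 := by positivity
        nlinarith)
    refine ⟨uT v2 (n - m + (2 : ℕ)), ⟨θ', h1, h2, ?_⟩, ?_, n, q,
      X * (C (v2 : ℤ) * f), rfl, ?_, hq1, hnz1, ?_⟩
    · rw [hP2]
      apply shiftP'
      apply classP_down _ _ (hk0 _ 2 two_ne_zero)
      rw [← tq, ← tr v2 u2 hu21]
      exact h3
    · intro hCar
      have h4 := hKc θ (q.map cE) (C (u2 : Eis) * f.map cE) s _ T _ hθ hdv2 (by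
        intro z hz
        obtain ⟨t, rfl⟩ : ∃ t : Circle, (t : ℂ) = z :=
          ⟨⟨z, mem_sphere_zero_iff_norm.mpr hz⟩, rfl⟩
        have h5 := (hCa (evR t (LaurentPolynomial.T n * toLaurent q : RO ℤ))
          (evR t (((uT v2 (n - m + (2 : ℕ)) : (RO ℤ)ˣ) : RO ℤ) *
            (LaurentPolynomial.T m * toLaurent f))) (by
          intro x y hx hy
          have := hCar t x y hx hy
          rwa [map_add] at this)).2
        rw [hP1, evR_T_mul, evR_T_mul] at h5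
        have h6 : ‖(t : ℂ) ^ n‖ = 1 := by rw [norm_zpow, Circle.norm_coe, one_zpow]
        have h7 : (t : ℂ) ^ n * (starRingEnd ℂ) ((t : ℂ) ^ n) = 1 := by
          rw [Complex.mul_conj, Complex.normSq_eq_norm_sq, h6]; norm_num
        rw [tr v2 u2 hu21, map_cE, map_cE]
        rw [Polynomial.map_mul, Polynomial.map_pow, map_X, eval_mul, eval_pow, eval_X] at h5
        have e1 : ‖(t : ℂ) ^ n * ((t : ℂ) ^ 2 * eval (t : ℂ) ((C (v2 : ℤ) * f).map Coef.emb))‖ =
            ‖eval (t : ℂ) ((C (v2 : ℤ) * f).map Coef.emb)‖ := by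
          rw [norm_mul, h6, one_mul, norm_mul, norm_pow, hz, one_pow, one_mul]
        have e2 : ‖(t : ℂ) ^ n * eval (t : ℂ) (q.map Coef.emb)‖ =
            ‖eval (t : ℂ) (q.map Coef.emb)‖ := by
          rw [norm_mul, h6, one_mul]
        rw [e1, e2, map_mul] at h5
        have h8 : (t : ℂ) ^ n * ((t : ℂ) ^ 2 * eval (t : ℂ) ((C (v2 : ℤ) * f).map Coef.emb)) *
            ((starRingEnd ℂ) ((t : ℂ) ^ n) * (starRingEnd ℂ) (eval (t : ℂ) (q.map Coef.emb))) =
            (t : ℂ) ^ 2 * eval (t : ℂ) ((C (v2 : ℤ) * f).map Coef.emb) *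
              (starRingEnd ℂ) (eval (t : ℂ) (q.map Coef.emb)) := by
          calc _ = ((t : ℂ) ^ n * (starRingEnd ℂ) ((t : ℂ) ^ n)) *
              ((t : ℂ) ^ 2 * eval (t : ℂ) ((C (v2 : ℤ) * f).map Coef.emb) *
              (starRingEnd ℂ) (eval (t : ℂ) (q.map Coef.emb))) := by ring
            _ = _ := by rw [h7, one_mul]
        rw [h8] at h5
        exact h5)
      rw [hcn2] at h4
      linarith
    · rw [hP1]
      congr 2
      ring
    · rw [coeff_X_mul_zero, map_zero, norm_zero]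
  rcases le_or_gt (θ / 10) ‖c‖ with hc10 | hc10
  · -- heavy
    right; left
    constructor
    · have h1 : ‖c * s.eval 0‖ ≤ ‖((f.coeff 0 : ℤ) : ℂ)‖ + ‖r.eval 0‖ := by
        have h2 : c * s.eval 0 = ((f.coeff 0 : ℤ) : ℂ) - r.eval 0 := by rw [hfe]; ring
        rw [h2]
        exact norm_sub_le _ _
      rw [norm_mul, hs0, mul_one] at h1
      have h3 := M_ge hA6 m f hf0
      linarith
    · refine ⟨uT v (n - m + (1 : ℕ)), hB _ ?_⟩
      exact (hLb θ (q.map cE) (C (u : Eis) * f.map cE) s _ T _ ‖c‖ 0 hθ hdv hcT).2.2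
        (by rw [hcn]; exact hc10) (by rw [hcn]; exact hc6.le)
        (by rw [hcn]; nlinarith [norm_nonneg c])
  rcases le_or_gt (98 / 100) ‖c‖ with hc98 | hc98
  · -- medium
    right; right; left
    refine ⟨uT v (n - m + (1 : ℕ)), ‖c‖, n, q, C (v : ℤ) * f, s, C (Eis.emb (u : Eis)) * r, T,
      Eis.emb (u : Eis) * c, rfl, ?_, ?_, ?_, hTi, ?_, hc98, hc10.le⟩
    · rw [hO1, pow_one]
    · have h1 := hdv
      rw [tr v u hu1] at h1
      exact h1
    · rw [hcT]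
      push_cast
      ring
    · rw [hu2, hcre]
      simp
  · -- type A
    right; right; right
    have hfn : ‖((f.coeff 0 : ℤ) : ℂ)‖ < 2 := by
      rw [hfe]
      calc ‖c * s.eval 0 + r.eval 0‖ ≤ ‖c * s.eval 0‖ + ‖r.eval 0‖ := norm_add_le _ _
        _ < 2 := by rw [norm_mul, hs0, mul_one]; linarith
    have hfu : IsUnit (f.coeff 0) := by
      rw [Complex.norm_intCast] at hfn
      have h1 : |f.coeff 0| < 2 := by exact_mod_cast hfn
      have h2 := Int.one_le_abs hf0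
      rw [Int.isUnit_iff_abs_eq]
      omega
    have hqu : IsUnit (q.coeff 0) := unit_of_norm _ hq1
    obtain ⟨w, hw⟩ := exists_neg_unit (q.coeff 0) (f.coeff 0) hqu hfu
    obtain ⟨uw, hw1, hw2⟩ := exists_uE w
    have hdw := hPv θ (q.map cE) (f.map cE) s r T c uw hd
    have hunw : ‖Eis.emb (uw : Eis)‖ = 1 := Eis.norm_emb_unit uw.isUnit
    obtain ⟨N', hN1, hN2, hNt⟩ := hLa θ (q.map cE) (C (uw : Eis) * f.map cE) s _ T _ hθ hdw (by
      rw [coeff_C_mul, coeff_map, coeff_map, hw1, ← map_mul, ← map_add, hw, map_zero])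
    obtain ⟨-, hR2⟩ := out5 n m q f w 0
    refine ⟨uT w (n - m + (0 : ℕ)), N', ?_, ?_⟩
    · have h1 := hdw.h1
      rw [hs0] at h1 hN2
      rw [norm_mul, hunw, one_mul] at hN2
      nlinarith
    · rw [hR2]
      apply typA_shift
      apply typA_down _ _ _ hq0
      rw [pow_zero, one_mul, Polynomial.map_add, ← tr w uw hw1]
      exact hNt

end Pool.Agent.B5.E.H82
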