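import Pool.Agent.Lib.MP_b5021c_nt.IfaceE6
import Pool.Agent.Lib.MP_b5021c_nt.B.H35.Adj

/-!
# Board b5, stage 3, row E6_PAE: two adjacent loads of type B with gain `988/1000`
-/

namespace Pool.Agent.B5.H82

open scoped LaurentPolynomial
open Pool.Agent.B5
open Pool.Agent.MP_b5021c_nt (Eis)

/-- Row E6_PAE. -/
theorem pae (hP : Pai6S) : PaeS := by
  intro P L _ _ _ _ _ phi D S i0 h e1 e2 θ hFP h4 hRay hθ hPθ hAdj hmn hG1 hG2 hfull hcx
  obtain ⟨θ', hθ1, hθ2, hθ3, hc⟩ := hP Eis P L phi D S i0 e2 e1 h θ (θ - 988 / 1000) hFP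
    (by omega) hRay (by linarith) hPθ (B5.H35.adjsy Eis e1 e2 hAdj).1 hmn hG2 hG1 hfull.symm
  have hB := hcx θ' hθ1
  rcases hc with hc | hc | ⟨hsq, hc⟩
  · linarith
  · have := hc (2 * θ' + 97 / 100) (by linarith) hB
    linarith
  · have h1 := hc (2 * θ' + 97 / 100) (by linarith) hB
    have h2 : θ' ≤ 3 / 4 * θ := by
      by_contra hlt
      push Not at hlt
      nlinarith
    linarith

end Pool.Agent.B5.H82
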