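import Pool.Agent.Lib.MP_b5021c_nt.IfaceE5
import Pool.Agent.Lib.MP_b5021c_nt.B.H24.Lsp
import Pool.Agent.Lib.MP_b5021c_nt.B.H09.E2Psz

/-!
# Board b5, stage 3, row E5_WC5: the window, mutual pair
-/

namespace Pool.Agent.B5.E.H82

open Polynomial
open Pool.Agent.MP_b5021c_nt (Eis nz)
open Pool.Agent.B5.H40 (norm_evR)

section

variable {O : Type} [CommRing O] [Coef O]

/-- Class `P` of a polynomial with non-zero constant coefficient: there is a root in the disc. -/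
theorem classP_root (θ : ℝ) (p : O[X]) (hp : p.coeff 0 ≠ 0) (h : ClassP θ (toLaurent p)) :
    ∃ b : ℂ, ‖b‖ < 1 ∧ (p.map (Coef.emb : O →+* ℂ)).eval b = 0 := by
  obtain ⟨hθ, n, q, h1, h2, w, hw, h3⟩ := h
  have hq : q.coeff 0 ≠ 0 := by
    intro h0
    rw [h0, map_zero, norm_zero] at h2
    exact zero_ne_one h2
  have h4 : LaurentPolynomial.T 0 * toLaurent p = LaurentPolynomial.T n * toLaurent q := by
    rw [LaurentPolynomial.T_zero, one_mul, h1]
  obtain ⟨-, rfl⟩ := B5.H09.nf_unique 0 n p q hp hq h4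
  have h5 : w ∈ (p.map (Coef.emb : O →+* ℂ)).roots.filter (fun x => ‖x‖ < 1) := by
    rw [h3]; exact Multiset.mem_singleton_self w
  rw [Multiset.mem_filter] at h5
  exact ⟨w, h5.2, (mem_roots'.mp h5.1).2⟩

/-- Shift of type A. -/
theorem typA_shift (N' : ℝ) (n : ℤ) (Q V : RO O) (h : TypA N' Q V) :
    TypA N' (LaurentPolynomial.T n * Q) (LaurentPolynomial.T n * V) := by
  obtain ⟨m, q, e, rfl, rfl, h1, h2, h3⟩ := h
  refine ⟨n + m, q, e, ?_, ?_, h1, h2, h3⟩
  · rw [LaurentPolynomial.T_add, mul_assoc]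
  · rw [← mul_assoc, ← LaurentPolynomial.T_add, add_assoc]

theorem shiftP' (θ : ℝ) (n : ℤ) (Q : RO O) (h : ClassP θ Q) :
    ClassP θ (LaurentPolynomial.T n * Q) := by
  obtain ⟨h1, m, q, rfl, h2, h3⟩ := h
  refine ⟨h1, n + m, q, ?_, h2, h3⟩
  rw [LaurentPolynomial.T_add, mul_assoc]

theorem typA_V (N' : ℝ) (hN : 1 ≤ N') (Q V : RO O) (h : TypA N' Q V) : ClassV N' V := by
  obtain ⟨m, q, e, rfl, rfl, h1, h2, h3⟩ := h
  exact ⟨hN, m + 1, e, rfl, h2, h3⟩

end

/-- The unit `v` with `q(0) + v f(0) = 0`. -/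
theorem exists_neg_unit {O : Type} [CommRing O] (a b : O) (ha : IsUnit a) (hb : IsUnit b) :
    ∃ w : Oˣ, a + (w : O) * b = 0 := by
  obtain ⟨u, rfl⟩ := ha
  obtain ⟨v, rfl⟩ := hb
  refine ⟨-(u * v⁻¹), ?_⟩
  rw [Units.val_neg, Units.val_mul, neg_mul, mul_assoc, Units.inv_mul, mul_one, add_neg_cancel]

/-- An Eisenstein integer of modulus one is a unit. -/
theorem eis_unit (a : Eis) (h : ‖Eis.emb a‖ = 1) : IsUnit a := by
  exact Eis.isUnit_iff_emb.2 h

/-- The load of type A next to a load of type B. -/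
theorem loadA5 {O : Type} [CommRing O] (Q F : RO O) (e : (RO O)ˣ) (n : ℤ) (q f : O[X])
    (hQ : Q = LaurentPolynomial.T n * toLaurent q)
    (hF : (e : RO O) * F = LaurentPolynomial.T n * toLaurent (X * f)) (w : Oˣ) :
    ∃ eA : (RO O)ˣ, (eA : RO O) = LaurentPolynomial.C (w : O) * LaurentPolynomial.T (-1) * (e : RO O) ∧
      (eA : RO O) * F = LaurentPolynomial.T n * toLaurent (C (w : O) * f) ∧
      Q + (eA : RO O) * F = LaurentPolynomial.T n * toLaurent (q + C (w : O) * f) ∧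
      (e : RO O) = LaurentPolynomial.C ((w⁻¹ : Oˣ) : O) * LaurentPolynomial.T 1 * (eA : RO O) := by
  have h1 : (LaurentPolynomial.C (w : O) : RO O) * LaurentPolynomial.C ((w⁻¹ : Oˣ) : O) = 1 := by
    rw [← map_mul, Units.mul_inv, map_one]
  have h2 : (LaurentPolynomial.T (-1) : RO O) * LaurentPolynomial.T 1 = 1 := by
    rw [← LaurentPolynomial.T_add, neg_add_cancel, LaurentPolynomial.T_zero]
  have h3 : (LaurentPolynomial.C (w : O) * LaurentPolynomial.T (-1) : RO O) *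
      (LaurentPolynomial.C ((w⁻¹ : Oˣ) : O) * LaurentPolynomial.T 1) = 1 := by
    calc _ = (LaurentPolynomial.C (w : O) : RO O) * LaurentPolynomial.C ((w⁻¹ : Oˣ) : O) *
        ((LaurentPolynomial.T (-1) : RO O) * LaurentPolynomial.T 1) := by ring
      _ = 1 := by rw [h1, h2, one_mul]
  let u : (RO O)ˣ := ⟨LaurentPolynomial.C (w : O) * LaurentPolynomial.T (-1),
    LaurentPolynomial.C ((w⁻¹ : Oˣ) : O) * LaurentPolynomial.T 1, h3, by rw [mul_comm]; exact h3⟩
  have h4 : LaurentPolynomial.C (w : O) * LaurentPolynomial.T (-1) * (e : RO O) * F =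
      LaurentPolynomial.T n * toLaurent (C (w : O) * f) := by
    rw [mul_assoc _ (e : RO O) F, hF, map_mul, map_mul, toLaurent_X, toLaurent_C]
    calc _ = LaurentPolynomial.T n * (LaurentPolynomial.C (w : O) * toLaurent f) *
        ((LaurentPolynomial.T (-1) : RO O) * LaurentPolynomial.T 1) := by ring
      _ = _ := by rw [h2, mul_one]
  refine ⟨u * e, ?_, ?_, ?_, ?_⟩
  · rw [Units.val_mul]
  · rw [Units.val_mul]
    exact h4
  · rw [Units.val_mul]
    change Q + LaurentPolynomial.C (w : O) * LaurentPolynomial.T (-1) * (e : RO O) * F = _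
    rw [h4, hQ, map_add, mul_add]
  · rw [Units.val_mul]
    change _ = _ * (LaurentPolynomial.C (w : O) * LaurentPolynomial.T (-1) * (e : RO O))
    calc (e : RO O) = (LaurentPolynomial.C (w : O) * LaurentPolynomial.T (-1) : RO O) *
      (LaurentPolynomial.C ((w⁻¹ : Oˣ) : O) * LaurentPolynomial.T 1) * (e : RO O) := by
          rw [h3, one_mul]
      _ = _ := by ring

/-- Class `V`, class `P` and the monomial unit: a cross pair. -/
theorem cross5 {O : Type} [CommRing O] [Coef O] (Q F : RO O) (eA e : (RO O)ˣ) (N' θ' : ℝ) (w : O)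
    (hV : ClassV N' (Q + (eA : RO O) * F)) (hP : ClassP θ' (Q + (e : RO O) * F))
    (he : (e : RO O) = LaurentPolynomial.C w * LaurentPolynomial.T 1 * (eA : RO O)) :
    Cross Q F eA e :=
  ⟨⟨N', hV⟩, Or.inr ⟨θ', hP⟩, w, 1, one_ne_zero, he⟩

/-- The pointwise form of the cardioid condition. -/
theorem car_pt {O : Type} [CommRing O] [Coef O] (hCa : Ca5S) (Q A : RO O) (hC : Car Q A) (z : Circle) :
    2 * ‖evR z A‖ * ‖evR z (Q + A)‖ ≤ ‖evR z Q‖ ^ 2 - ‖evR z A‖ ^ 2 := by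
  have h1 := (hCa (evR z Q) (evR z A) (by
    intro x y hx hy
    have := hC z x y hx hy
    rwa [map_add] at this)).1
  rwa [map_add]

/-- Row E5_WC5. -/
theorem wc5 (hCa : Ca5S) (hKb : Kb5S) (hCu : Cu5S) (hLb : Lb5S) (hLa : La6S) (hNw : Nw5S)
    (hPv : Pv5S) : Wc5S := by
  intro θ Q F e x y n q f s r T c hθ hW hC
  obtain ⟨hQ, hF, hd, hxy, hy, hc72, hwin⟩ := hW
  have hθ0 : (0 : ℝ) < θ := by linarith
  -- `|c|^2 = x^2 + y^2`
  have hcc : ‖c‖ ^ 2 = x ^ 2 + y ^ 2 := by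
    have h1 : ‖c * (starRingEnd ℂ) T‖ = ‖(θ : ℂ) * ((x : ℂ) + (y : ℂ) * Complex.I)‖ := by rw [hxy]
    rw [norm_mul, Complex.norm_conj, hd.nT, norm_mul, Complex.norm_real, Real.norm_eq_abs,
      abs_of_pos hθ0, mul_comm] at h1
    have h2 : ‖c‖ = ‖((x : ℂ) + (y : ℂ) * Complex.I)‖ := mul_left_cancel₀ hθ0.ne' h1
    rw [h2, Complex.sq_norm, Complex.normSq_add_mul_I]
  obtain ⟨hx62, hc11, hN3⟩ := hNw θ ‖c‖ x y hθ (norm_nonneg c) hcc hy hc72 hwin
  have hq0 : q.coeff 0 ≠ 0 := by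
    intro h0
    have := hd.q0
    rw [h0, map_zero, norm_zero] at this
    exact zero_ne_one this
  -- the pointwise inequality on the circle
  have hpt : ∀ z : ℂ, ‖z‖ = 1 → 2 * ‖(f.map Eis.emb).eval z‖ * ‖((q + X * f).map Eis.emb).eval z‖ ≤
      ‖(q.map Eis.emb).eval z‖ ^ 2 - ‖(f.map Eis.emb).eval z‖ ^ 2 := by
    intro z hz
    obtain ⟨t, rfl⟩ : ∃ t : Circle, (t : ℂ) = z :=
      ⟨⟨z, mem_sphere_zero_iff_norm.mpr hz⟩, rfl⟩
    have h1 := car_pt hCa Q _ hC t
    rw [hF, hQ, ← mul_add, ← map_add, norm_evR, norm_evR, norm_evR] at h1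
    have h2 : ‖((X * f).map (Coef.emb : Eis →+* ℂ)).eval (t : ℂ)‖ = ‖(f.map Eis.emb).eval (t : ℂ)‖ := by
      rw [Polynomial.map_mul, map_X, eval_mul, eval_X, norm_mul, hz, one_mul]
      rfl
    rw [h2] at h1
    exact h1
  obtain ⟨hr0, hr1, hfu⟩ := hKb θ q f s r T c hθ hd hc11 hpt
  -- the load of type B
  obtain ⟨θ', hθ1, hθ2, hθ3, hP⟩ := (hLb θ q f s r T c x y hθ hd hxy).1 (by linarith)
  have hθ3 := hθ3 hfu
  have hQe : Q + (e : RO Eis) * F = LaurentPolynomial.T n * toLaurent (q + X * f) := by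
    rw [hF, hQ, map_add, mul_add]
  have hP' : ClassP θ' (Q + (e : RO Eis) * F) := by
    rw [hQe]; exact shiftP' _ _ _ hP
  have hv0 : (q + X * f).coeff 0 ≠ 0 := by
    rw [coeff_add, coeff_X_mul_zero, add_zero]; exact hq0
  have hmap : (q + X * f).map Eis.emb = q.map Eis.emb + X * f.map Eis.emb := by
    rw [Polynomial.map_add, Polynomial.map_mul, map_X]
  -- no zero on the circle
  have hnz : ∀ z : ℂ, ‖z‖ = 1 → ((q + X * f).map Eis.emb).eval z ≠ 0 := by
    obtain ⟨b, hb, hbz⟩ := classP_root θ' _ hv0 hP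
    rw [hmap]
    apply hCu (q.map Eis.emb) (X * f.map Eis.emb)
    · unfold nz
      rw [hd.root, Multiset.card_singleton]
    · exact hd.nz
    · intro z hz
      have h1 := hpt z hz
      rw [hmap] at h1
      rw [eval_mul, eval_X, norm_mul, hz, one_mul]
      exact h1
    · rw [← hmap]
      intro h0
      apply hv0
      have h1 := congrArg (fun p : ℂ[X] => p.coeff 0) h0
      simp only [coeff_map, coeff_zero] at h1
      exact (map_eq_zero_iff Eis.emb Eis.emb_injective).mp h1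
    · exact ⟨b, hb, by rw [← hmap]; exact hbz⟩
  refine ⟨hfu, ?_, ?_⟩
  · intro z h0
    rw [hQe] at h0
    have h1 := norm_evR z n (q + X * f)
    rw [h0, norm_zero] at h1
    exact hnz z (Circle.norm_coe z) (norm_eq_zero.mp h1.symm)
  rcases le_or_gt (1 + (3 * y ^ 2 + 3 / 1000) / θ) x with hx | hx
  · -- the load of type B pays
    left
    have h1 : 0 ≤ (3 * y ^ 2 + 3 / 1000) / θ := by positivity
    have hx1 : 1 ≤ x := by linarith
    have hcx : x ≤ ‖c‖ := by
      apply le_of_sq_le_sq _ (norm_nonneg c)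
      rw [hcc]
      nlinarith [sq_nonneg y]
    refine ⟨hx1, θ', hθ1, ?_, hP'⟩
    have h2 : ‖c‖ * (1 - ‖c‖) ≤ 0 := by nlinarith [norm_nonneg c]
    have h3 : (‖c‖ * (1 - ‖c‖) + 5 / 2 * y ^ 2) / θ ≤ (5 / 2 * y ^ 2) / θ :=
      div_le_div_of_nonneg_right (by linarith) hθ0.le
    have h4 : (5 / 2 * y ^ 2) / θ + 3 / 1000 / θ ≤ (3 * y ^ 2 + 3 / 1000) / θ := by
      rw [← add_div]
      exact div_le_div_of_nonneg_right (by nlinarith [sq_nonneg y]) hθ0.le
    have h5 : 100 / θ ^ 2 + 1 / (500 * θ) ≤ 3 / 1000 / θ := by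
      have e1 : 100 / θ ^ 2 = (100 / θ) / θ := by rw [div_div, sq]
      have e2 : 1 / (500 * θ) = (1 / 500) / θ := by rw [div_div]
      rw [e1, e2, ← add_div]
      apply div_le_div_of_nonneg_right _ hθ0.le
      have : 100 / θ ≤ 1 / 10000 := by
        rw [div_le_iff₀ hθ0]; linarith
      linarith
    linarith
  · -- the load of type A
    right
    have h1 := hN3 (3 / 1000) (by norm_num) (by norm_num) hx.le
    obtain ⟨w, hw⟩ := exists_neg_unit (q.coeff 0) (f.coeff 0) (eis_unit _ hd.q0) hfu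
    have hdw := hPv θ q f s r T c w hd
    have hw1 : ‖Eis.emb (w : Eis)‖ = 1 := Eis.norm_emb_unit w.isUnit
    obtain ⟨N', hN1, hN2, hN4, hNt⟩ := hLa θ q (C (w : Eis) * f) s _ T _ hθ hdw (by
      rw [coeff_C_mul]; exact hw)
    obtain ⟨eA, hA1, hA2, hA3, hA4⟩ := loadA5 Q F e n q f hQ hF w
    have hT : TypA N' Q (Q + (eA : RO Eis) * F) := by
      rw [hA3]
      conv => arg 2; rw [hQ]
      exact typA_shift _ _ _ _ hNt
    have hs0 : ‖s.eval 0‖ = 1 := by
      have h1 : (q.map Eis.emb).eval 0 = s.eval 0 := by rw [hd.qs]; simp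
      rw [← h1, ← coeff_zero_eq_eval_zero, coeff_map]
      exact hd.q0
    have hr1' : ‖(derivative (C (Eis.emb (w : Eis)) * r)).eval 0 * s.eval 0 -
        (C (Eis.emb (w : Eis)) * r).eval 0 * (derivative s).eval 0‖ ≤ 477 / 1000 := by
      have h2 : (derivative (C (Eis.emb (w : Eis)) * r)).eval 0 * s.eval 0 -
          (C (Eis.emb (w : Eis)) * r).eval 0 * (derivative s).eval 0 =
          Eis.emb (w : Eis) * ((derivative r).eval 0 * s.eval 0 - r.eval 0 * (derivative s).eval 0) := by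
        rw [derivative_C_mul, eval_mul, eval_mul, eval_C]; ring
      rw [h2, norm_mul, hw1, one_mul]
      rw [hs0] at hr1
      linarith
    refine ⟨eA, w, N', hA1, ?_, ?_, ?_, hT⟩
    · exact cross5 Q F eA e N' θ' _ (typA_V N' hN1 _ _ hT) hP' hA4
    · rw [hs0, norm_mul, hw1, one_mul] at hN4
      have h3 : 72 / 100 * θ ≤ ‖c‖ * θ := mul_le_mul_of_nonneg_right hc72 hθ0.le
      linarith
    · rw [hs0, norm_mul, hw1, one_mul] at hN2
      linarith

end Pool.Agent.B5.E.H82
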