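import Pool.Agent.Lib.MP_b5021c_nt.E.H82.Contact

/-!
# MP_b5021c_nt, stage 3, chapter E1: integral nonnegative Laurent polynomials with constant term `2`
-/

set_option autoImplicit false

open Complex

namespace Pool.Agent.B5.E.H82

/-- ONE (statement of helper39). -/
def OneS : Prop := ∀ c : ℤ →₀ ℤ, (∀ k, c (-k) = c k) →
  (∀ z : Circle, 0 ≤ (c.sum fun k a => (a : ℂ) * (z : ℂ) ^ k).re) → c 0 = 2 →
  (∃ z : Circle, (c.sum fun k a => (a : ℂ) * (z : ℂ) ^ k) = 0) →
  ∃ (M : ℕ) (κ : ℤ), 0 < M ∧ (κ = 1 ∨ κ = -1) ∧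
    ∀ k : ℤ, c k = if k = 0 then 2 else if k = M ∨ k = -M then κ else 0

theorem icc_split (g : ℤ → ℂ) (M : ℕ) :
    ∑ k ∈ Finset.Icc (-(M : ℤ)) M, g k = g 0 + ∑ k ∈ Finset.Icc 1 M, (g k + g (-k)) := by
  induction M with
  | zero => simp
  | succ M ih =>
    have h1 : Finset.Icc (-((M + 1 : ℕ) : ℤ)) ((M + 1 : ℕ) : ℤ) =
        insert ((M + 1 : ℕ) : ℤ) (insert (-((M + 1 : ℕ) : ℤ)) (Finset.Icc (-(M : ℤ)) M)) := by
      ext x
      simp only [Finset.mem_insert, Finset.mem_Icc]
      push_cast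
      omega
    rw [h1, Finset.sum_insert, Finset.sum_insert, ih, Finset.sum_Icc_succ_top (by omega)]
    · ring
    · simp only [Finset.mem_Icc]
      push_cast
      omega
    · simp only [Finset.mem_insert, Finset.mem_Icc]
      push_cast
      omega

/-- The real part of a symmetric Laurent polynomial of degree at most `M`. -/
theorem sum_tp (c : ℤ →₀ ℤ) (hs : ∀ k, c (-k) = c k) (M : ℕ)
    (hM : ∀ k : ℤ, (M : ℤ) < k → c k = 0) (w : ℂ) (hw : ‖w‖ = 1) :
    (c.sum fun k a => (a : ℂ) * w ^ k).re = tp M (c 0) (fun k => ((c k : ℤ) : ℂ)) w := by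
  have h1 : (c.sum fun k a => (a : ℂ) * w ^ k) =
      ∑ k ∈ Finset.Icc (-(M : ℤ)) M, (c k : ℂ) * w ^ k := by
    apply Finsupp.sum_of_support_subset
    · intro k hk
      rw [Finset.mem_Icc]
      have hk' := Finsupp.mem_support_iff.1 hk
      constructor
      · by_contra h
        push Not at h
        apply hk'
        rw [← hs]
        exact hM _ (by omega)
      · by_contra h
        push Not at h
        exact hk' (hM _ h)
    · intro k _
      simp
  rw [h1, icc_split]
  unfold tp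
  rw [Complex.add_re, Complex.re_sum, Complex.re_sum, Finset.mul_sum]
  congr 1
  · simp
  · refine Finset.sum_congr rfl fun k _ => ?_
    have h2 : w ^ (-(k : ℤ)) = (starRingEnd ℂ) (w ^ k) := by
      rw [zpow_neg, zpow_natCast]
      have h3 : (w ^ k) * (starRingEnd ℂ) (w ^ k) = 1 := by
        rw [Complex.mul_conj, Complex.normSq_eq_norm_sq, norm_pow, hw]
        simp
      exact inv_eq_of_mul_eq_one_right h3
    rw [hs, h2, zpow_natCast, Complex.add_re]
    have h4 : (((c k : ℤ) : ℂ) * (starRingEnd ℂ) (w ^ k)).re = (((c k : ℤ) : ℂ) * w ^ k).re := by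
      have : ((c k : ℤ) : ℂ) = (((c k : ℤ) : ℝ) : ℂ) := by push_cast; rfl
      rw [this, Complex.re_ofReal_mul, Complex.re_ofReal_mul, Complex.conj_re]
    rw [h4]
    ring

/-- ONE. -/
theorem one : OneS := by
  intro c hs hpos h0 ⟨z0, hz0⟩
  -- a positive index with a nonzero coefficient
  have hex : ∃ M : ℕ, 0 < M ∧ c M ≠ 0 := by
    by_contra hno
    push Not at hno
    have h1 := sum_tp c hs 0 (fun k hk => by
      have : k = ((k.toNat : ℕ) : ℤ) := by omega
      rw [this]
      exact hno _ (by omega)) z0 (Circle.norm_coe z0)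
    rw [hz0] at h1
    simp [tp, h0] at h1
  -- the largest one
  classical
  have hbd : ∀ M : ℕ, c M ≠ 0 → M ≤ c.support.sup Int.natAbs := by
    intro M hM
    have := Finset.le_sup (f := Int.natAbs) (Finsupp.mem_support_iff.2 hM)
    simpa using this
  set M := Nat.findGreatest (fun M : ℕ => c M ≠ 0) (c.support.sup Int.natAbs) with hMdef
  obtain ⟨M1, hM1, hM1'⟩ := hex
  have hMge : M1 ≤ M := Nat.le_findGreatest (hbd M1 hM1') hM1'
  have hM0 : 0 < M := lt_of_lt_of_le hM1 hMge
  have hMne : c M ≠ 0 := Nat.findGreatest_spec (P := fun M : ℕ => c M ≠ 0) (hbd M1 hM1') hM1'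
  have hgt : ∀ k : ℤ, (M : ℤ) < k → c k = 0 := by
    intro k hk
    by_contra hne
    have hk' : k = ((k.toNat : ℕ) : ℤ) := by omega
    rw [hk'] at hne
    have := Nat.le_findGreatest (P := fun M : ℕ => c M ≠ 0) (hbd _ hne) hne
    omega
  have htp : ∀ w : ℂ, ‖w‖ = 1 → 0 ≤ tp M 2 (fun k => ((c k : ℤ) : ℂ)) w := by
    intro w hw
    have h1 := hpos ⟨w, mem_sphere_zero_iff_norm.2 hw⟩
    have h2 := sum_tp c hs M hgt w hw
    rw [h0] at h2
    have h3 : (0 : ℝ) ≤ (c.sum fun k a => (a : ℂ) * w ^ k).re := h1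
    rw [h2] at h3
    exact_mod_cast h3
  -- the leading coefficient
  have hlead : ‖((c M : ℤ) : ℂ)‖ ≤ 2 / 2 := by
    apply ov1
    intro v hv
    rcases Nat.lt_or_ge 1 M with h2 | h2
    · exact (norm_nonneg _).trans (aliasing M 2 _ htp 1 le_rfl h2 v hv)
    · have hM1 : M = 1 := by omega
      have := htp v hv
      rw [hM1] at this ⊢
      simpa [tp] using this
  have habs : |c M| = 1 := by
    have h1 : ‖((c M : ℤ) : ℂ)‖ = ((|c M| : ℤ) : ℝ) := by
      rw [Complex.norm_intCast]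
      push_cast
      rfl
    rw [h1] at hlead
    have h2 : |c M| ≤ 1 := by
      have : ((|c M| : ℤ) : ℝ) ≤ 1 := by linarith
      exact_mod_cast this
    have h3 : 1 ≤ |c M| := Int.one_le_abs hMne
    omega
  have hmid : ∀ k : ℕ, 1 ≤ k → k < M → c k = 0 := by
    intro k h1 h2
    have h3 := con M 2 (fun k => ((c k : ℤ) : ℂ)) htp (by
      show (2 : ℝ) = 2 * ‖((c M : ℤ) : ℂ)‖
      rw [Complex.norm_intCast, ← Int.cast_abs, habs]
      norm_num) k h1 h2
    exact_mod_cast h3
  refine ⟨M, c M, hM0, ?_, ?_⟩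
  · rcases abs_eq (zero_le_one' ℤ) |>.1 habs with h | h
    · exact Or.inl h
    · exact Or.inr h
  · intro k
    split_ifs with h1 h2
    · rw [h1, h0]
    · rcases h2 with h2 | h2
      · rw [h2]
      · rw [h2, hs]
    · push Not at h2
      rcases lt_trichotomy (k.natAbs) M with h3 | h3 | h3
      · have h4 : c ((k.natAbs : ℕ) : ℤ) = 0 := hmid _ (by omega) h3
        rcases Int.natAbs_eq k with h5 | h5
        · rw [h5]; exact h4
        · rw [h5, hs]; exact h4
      · exfalso
        rcases Int.natAbs_eq k with h5 | h5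
        · exact h2.1 (by omega)
        · exact h2.2 (by omega)
      · have h4 : c ((k.natAbs : ℕ) : ℤ) = 0 := hgt _ (by omega)
        rcases Int.natAbs_eq k with h5 | h5
        · rw [h5]; exact h4
        · rw [h5, hs]; exact h4

end Pool.Agent.B5.E.H82
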