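import Pool.Agent.Lib.MP_b5021c_nt.E.H82.Ov

/-!
# MP_b5021c_nt, stage 3, chapter E1: contact of one-variable trigonometric polynomials
-/

set_option autoImplicit false

open Complex

namespace Pool.Agent.B5.E.H82

theorem geom (m n : ℕ) (hm : 0 < m) (w ζ : ℂ) (hζ : IsPrimitiveRoot ζ m) :
    ∑ j ∈ Finset.range m, (w * ζ ^ j) ^ n = if m ∣ n then (m : ℂ) * w ^ n else 0 := by
  have e : ∀ j ∈ Finset.range m, (w * ζ ^ j) ^ n = w ^ n * (ζ ^ n) ^ j := by
    intro j _
    rw [mul_pow, ← pow_mul, ← pow_mul, mul_comm j n]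
  rw [Finset.sum_congr rfl e, ← Finset.mul_sum]
  split_ifs with h
  · have h1 : ζ ^ n = 1 := (hζ.pow_eq_one_iff_dvd n).2 h
    simp [h1, mul_comm]
  · have h1 : ζ ^ n ≠ 1 := fun h2 => h ((hζ.pow_eq_one_iff_dvd n).1 h2)
    rw [geom_sum_eq h1, ← pow_mul, mul_comm n m, pow_mul, hζ.pow_eq_one]
    simp

/-- The value of the trigonometric polynomial `a + 2 Re ∑_{1 ≤ k ≤ m} c_k w^k`. -/
noncomputable def tp (m : ℕ) (a : ℝ) (c : ℕ → ℂ) (w : ℂ) : ℝ :=
  a + 2 * (∑ k ∈ Finset.Icc 1 m, c k * w ^ k).re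

theorem tp_eq (m : ℕ) (a : ℝ) (c : ℕ → ℂ) (w v : ℂ) (hv : ‖v‖ = 1) (hw : v ^ m = w) :
    ((tp m a c v : ℝ) : ℂ) * w = (a : ℂ) * w +
      ∑ k ∈ Finset.Icc 1 m, (c k * v ^ k * w + (starRingEnd ℂ) (c k) * v ^ (m - k)) := by
  have h1 : ((tp m a c v : ℝ) : ℂ) = (a : ℂ) + ∑ k ∈ Finset.Icc 1 m,
      (c k * v ^ k + (starRingEnd ℂ) (c k * v ^ k)) := by
    unfold tp
    rw [Finset.sum_add_distrib, ← map_sum, Complex.add_conj]
    push_cast
    ring
  rw [h1, add_mul, Finset.sum_mul]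
  congr 1
  apply Finset.sum_congr rfl
  intro k hk
  have hk2 := (Finset.mem_Icc.1 hk).2
  rw [add_mul, map_mul, map_pow]
  congr 1
  have h2 : (starRingEnd ℂ) v * v = 1 := by
    rw [mul_comm, Complex.mul_conj, Complex.normSq_eq_norm_sq, hv]
    norm_num
  have h3 : w = v ^ k * v ^ (m - k) := by
    rw [← pow_add, Nat.add_sub_cancel' hk2, hw]
  rw [h3, mul_assoc, ← mul_assoc (((starRingEnd ℂ) v) ^ k), ← mul_pow, h2, one_pow, one_mul]

/-- Aliasing: the inequality between the coefficients `k`, `m - k` and `m`. -/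
theorem aliasing (m : ℕ) (a : ℝ) (c : ℕ → ℂ)
    (h : ∀ w : ℂ, ‖w‖ = 1 → 0 ≤ tp m a c w) (k : ℕ) (hk1 : 1 ≤ k) (hk2 : k < m)
    (v : ℂ) (hv : ‖v‖ = 1) :
    ‖c k * v + (starRingEnd ℂ) (c (m - k))‖ ≤ a + 2 * (c m * v).re := by
  have hm : 0 < m := by omega
  have hmC : (m : ℂ) ≠ 0 := by exact_mod_cast hm.ne'
  obtain ⟨w, hw, hwm⟩ := root m hm v hv
  have hζ := Complex.isPrimitiveRoot_exp m hm.ne'
  set ζ := Complex.exp (2 * Real.pi * I / m) with hζd
  have hζ1 : ‖ζ‖ = 1 := hζ.norm'_eq_one hm.ne'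
  have hn : ∀ j, ‖w * ζ ^ j‖ = 1 := by
    intro j
    rw [norm_mul, norm_pow, hζ1, one_pow, hw, one_mul]
  have hp : ∀ j, (w * ζ ^ j) ^ m = v := by
    intro j
    rw [mul_pow, hwm, ← pow_mul, mul_comm j m, pow_mul, hζ.pow_eq_one, one_pow, mul_one]
  -- the sum of the values
  have hsum : ∀ n : ℕ, (∑ j ∈ Finset.range m,
      ((tp m a c (w * ζ ^ j) : ℝ) : ℂ) * (w * ζ ^ j) ^ n) * v =
      (a : ℂ) * v * (∑ j ∈ Finset.range m, (w * ζ ^ j) ^ n) +
        ∑ i ∈ Finset.Icc 1 m, (c i * v * (∑ j ∈ Finset.range m, (w * ζ ^ j) ^ (i + n)) +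
          (starRingEnd ℂ) (c i) * (∑ j ∈ Finset.range m, (w * ζ ^ j) ^ (m - i + n))) := by
    intro n
    have e1 : ∀ j ∈ Finset.range m, ((tp m a c (w * ζ ^ j) : ℝ) : ℂ) * (w * ζ ^ j) ^ n * v =
        (a : ℂ) * v * (w * ζ ^ j) ^ n + ∑ i ∈ Finset.Icc 1 m,
          (c i * v * (w * ζ ^ j) ^ (i + n) +
            (starRingEnd ℂ) (c i) * (w * ζ ^ j) ^ (m - i + n)) := by
      intro j _
      have := tp_eq m a c v (w * ζ ^ j) (hn j) (hp j)
      calc ((tp m a c (w * ζ ^ j) : ℝ) : ℂ) * (w * ζ ^ j) ^ n * v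
          = (((tp m a c (w * ζ ^ j) : ℝ) : ℂ) * v) * (w * ζ ^ j) ^ n := by ring
        _ = _ := by
          rw [this, add_mul, Finset.sum_mul]
          congr 1
          apply Finset.sum_congr rfl
          intro i _
          rw [pow_add, pow_add]
          ring
    rw [Finset.sum_mul, Finset.sum_congr rfl e1, Finset.sum_add_distrib, ← Finset.mul_sum,
      Finset.sum_comm]
    congr 1
    apply Finset.sum_congr rfl
    intro i _
    rw [Finset.sum_add_distrib, ← Finset.mul_sum, ← Finset.mul_sum]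
  -- `n = 0`
  have h0 : ∑ j ∈ Finset.range m, tp m a c (w * ζ ^ j) = m * (a + 2 * (c m * v).re) := by
    have h1 := hsum 0
    simp only [geom m _ hm w ζ hζ, pow_zero, mul_one, add_zero] at h1
    have h2 : ∑ i ∈ Finset.Icc 1 m, ((c i * v * (if m ∣ i then (m : ℂ) * w ^ i else 0)) +
        (starRingEnd ℂ) (c i) * (if m ∣ m - i then (m : ℂ) * w ^ (m - i) else 0)) =
        c m * v * (m * v) + (starRingEnd ℂ) (c m) * m := by
      rw [Finset.sum_eq_single m]
      · simp [hwm]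
      · intro i hi hne
        obtain ⟨i1, i2⟩ := Finset.mem_Icc.1 hi
        have n1 : ¬ m ∣ i := fun hd => hne (le_antisymm i2 (Nat.le_of_dvd (by omega) hd))
        have n2 : ¬ m ∣ m - i := by
          intro hd
          have := Nat.le_of_dvd (by omega) hd
          omega
        rw [if_neg n1, if_neg n2]
        simp
      · intro hi
        exact absurd (Finset.mem_Icc.2 ⟨hm, le_rfl⟩) hi
    rw [h2] at h1
    rw [Finset.sum_const, Finset.card_range, nsmul_eq_mul, mul_one] at h1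
    have hv2 : v * (starRingEnd ℂ) v = 1 := by
      rw [Complex.mul_conj, Complex.normSq_eq_norm_sq, hv]
      norm_num
    have h3 : (∑ j ∈ Finset.range m, ((tp m a c (w * ζ ^ j) : ℝ) : ℂ)) =
        (m : ℂ) * (a + (c m * v + (starRingEnd ℂ) (c m * v))) := by
      have hv0 : v ≠ 0 := by
        rw [← norm_pos_iff, hv]
        exact one_pos
      apply mul_right_cancel₀ hv0
      rw [h1, map_mul]
      linear_combination (-(m : ℂ) * (starRingEnd ℂ) (c m)) * hv2
    rw [Complex.add_conj] at h3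
    exact_mod_cast h3
  -- `n = m - k`
  have hk0 := hsum (m - k)
  simp only [geom m _ hm w ζ hζ] at hk0
  have h2 : ∑ i ∈ Finset.Icc 1 m, ((c i * v * (if m ∣ i + (m - k) then
        (m : ℂ) * w ^ (i + (m - k)) else 0)) +
      (starRingEnd ℂ) (c i) * (if m ∣ m - i + (m - k) then
        (m : ℂ) * w ^ (m - i + (m - k)) else 0)) =
      c k * v * (m * v) + (starRingEnd ℂ) (c (m - k)) * (m * v) := by
    rw [Finset.sum_add_distrib]
    congr 1
    · rw [Finset.sum_eq_single k]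
      · rw [Nat.add_sub_cancel' hk2.le, if_pos (dvd_refl m), hwm]
      · intro i hi hne
        obtain ⟨i1, i2⟩ := Finset.mem_Icc.1 hi
        have n1 : ¬ m ∣ i + (m - k) := by
          rintro ⟨q, hq⟩
          rcases Nat.lt_or_ge q 2 with h4 | h4
          · interval_cases q <;> omega
          · have : 2 * m ≤ m * q := by nlinarith
            omega
        rw [if_neg n1, mul_zero]
      · intro hi
        exact absurd (Finset.mem_Icc.2 ⟨hk1, hk2.le⟩) hi
    · rw [Finset.sum_eq_single (m - k)]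
      · rw [show m - (m - k) + (m - k) = m by omega, if_pos (dvd_refl m), hwm]
      · intro i hi hne
        obtain ⟨i1, i2⟩ := Finset.mem_Icc.1 hi
        have n1 : ¬ m ∣ m - i + (m - k) := by
          rintro ⟨q, hq⟩
          rcases Nat.lt_or_ge q 2 with h4 | h4
          · interval_cases q <;> omega
          · have : 2 * m ≤ m * q := by nlinarith
            omega
        rw [if_neg n1, mul_zero]
      · intro hi
        exact absurd (Finset.mem_Icc.2 ⟨by omega, by omega⟩) hi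
  have n0 : ¬ m ∣ m - k := by
    intro hd
    have := Nat.le_of_dvd (by omega) hd
    omega
  rw [h2, if_neg n0, mul_zero, zero_add] at hk0
  have hv0 : v ≠ 0 := by
    rw [← norm_pos_iff, hv]
    exact one_pos
  have h3 : (∑ j ∈ Finset.range m,
      ((tp m a c (w * ζ ^ j) : ℝ) : ℂ) * (w * ζ ^ j) ^ (m - k)) =
      (m : ℂ) * (c k * v + (starRingEnd ℂ) (c (m - k))) := by
    apply mul_right_cancel₀ hv0
    rw [hk0]
    ring
  have h4 : (m : ℝ) * ‖c k * v + (starRingEnd ℂ) (c (m - k))‖ ≤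
      m * (a + 2 * (c m * v).re) := by
    calc (m : ℝ) * ‖c k * v + (starRingEnd ℂ) (c (m - k))‖
        = ‖(m : ℂ) * (c k * v + (starRingEnd ℂ) (c (m - k)))‖ := by
          rw [norm_mul, Complex.norm_natCast]
      _ = ‖∑ j ∈ Finset.range m,
            ((tp m a c (w * ζ ^ j) : ℝ) : ℂ) * (w * ζ ^ j) ^ (m - k)‖ := by rw [h3]
      _ ≤ ∑ j ∈ Finset.range m,
            ‖((tp m a c (w * ζ ^ j) : ℝ) : ℂ) * (w * ζ ^ j) ^ (m - k)‖ := norm_sum_le _ _
      _ = ∑ j ∈ Finset.range m, tp m a c (w * ζ ^ j) := by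
          apply Finset.sum_congr rfl
          intro j _
          rw [norm_mul, norm_pow, hn, one_pow, mul_one, Complex.norm_real,
            Real.norm_of_nonneg (h _ (hn j))]
      _ = m * (a + 2 * (c m * v).re) := h0
  have hm0 : (0 : ℝ) < m := by exact_mod_cast hm
  exact le_of_mul_le_mul_left h4 hm0

/-- (CON) contact: the middle coefficients vanish. -/
theorem con (m : ℕ) (a : ℝ) (c : ℕ → ℂ)
    (h : ∀ w : ℂ, ‖w‖ = 1 → 0 ≤ tp m a c w) (ha : a = 2 * ‖c m‖) (k : ℕ) (hk1 : 1 ≤ k)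
    (hk2 : k < m) : c k = 0 := by
  obtain ⟨v0, hv0, e0⟩ := turn (c m)
  have hA : ∀ k, 1 ≤ k → k < m → ∀ u : ℂ, ‖u‖ = 1 →
      ‖c k * (v0 * u) + (starRingEnd ℂ) (c (m - k))‖ ≤ a * (1 - u.re) := by
    intro k h1 h2 u hu
    have := aliasing m a c h k h1 h2 (v0 * u) (by rw [norm_mul, hv0, hu, one_mul])
    rw [← mul_assoc (c m), e0, neg_mul, Complex.neg_re, Complex.re_ofReal_mul] at this
    refine this.trans (le_of_eq ?_)
    rw [ha]
    ring
  have h1 := hA k hk1 hk2 1 (by simp)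
  simp only [mul_one, Complex.one_re, sub_self, mul_zero] at h1
  have h2 : c k * v0 + (starRingEnd ℂ) (c (m - k)) = 0 := norm_le_zero_iff.1 h1
  -- points near `1`
  have h3 : ∀ t : ℝ, ‖c k‖ * ‖Complex.exp (t * I) - 1‖ ≤
      a / 2 * ‖Complex.exp (t * I) - 1‖ ^ 2 := by
    intro t
    have h4 := hA k hk1 hk2 (Complex.exp (t * I)) (Complex.norm_exp_ofReal_mul_I t)
    have h5 : c k * (v0 * Complex.exp (t * I)) + (starRingEnd ℂ) (c (m - k)) =
        c k * v0 * (Complex.exp (t * I) - 1) := by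
      linear_combination h2
    rw [h5, norm_mul, norm_mul, hv0, mul_one] at h4
    refine h4.trans (le_of_eq ?_)
    have h6 : ‖Complex.exp (t * I) - 1‖ ^ 2 = 2 * (1 - (Complex.exp (t * I)).re) := by
      rw [← Complex.normSq_eq_norm_sq, Complex.normSq_apply]
      have h7 : (Complex.exp (t * I)).re ^ 2 + (Complex.exp (t * I)).im ^ 2 = 1 := by
        have := Complex.norm_exp_ofReal_mul_I t
        have h8 := Complex.normSq_eq_norm_sq (Complex.exp (t * I))
        rw [this, Complex.normSq_apply] at h8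
        nlinarith
      simp only [Complex.sub_re, Complex.sub_im, Complex.one_re, Complex.one_im]
      nlinarith
    rw [h6]
    ring
  have h4 : ∀ t : ℝ, 0 < t → t ≤ 1 → ‖c k‖ ≤ a / 2 * t := by
    intro t ht0 ht1
    have h5 : 0 < ‖Complex.exp (t * I) - 1‖ := by
      rw [norm_pos_iff]
      intro h0
      have h6 : Complex.exp (t * I) = 1 := by linear_combination h0
      have := congrArg Complex.im h6
      rw [Complex.exp_ofReal_mul_I_im, Complex.one_im] at this
      have h7 : 0 < Real.sin t := Real.sin_pos_of_pos_of_lt_pi ht0 (by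
        linarith [Real.pi_gt_three])
      linarith
    have h6 : ‖Complex.exp (t * I) - 1‖ ≤ t := by
      have := Real.norm_exp_I_mul_ofReal_sub_one_le (x := t)
      rw [mul_comm I (t : ℂ), Real.norm_of_nonneg ht0.le] at this
      exact this
    have h7 := h3 t
    have ha0 : 0 ≤ a := by rw [ha]; positivity
    have h8 : ‖c k‖ ≤ a / 2 * ‖Complex.exp (t * I) - 1‖ := by
      apply le_of_mul_le_mul_right _ h5
      rw [mul_assoc, ← sq]
      exact h7
    calc ‖c k‖ ≤ a / 2 * ‖Complex.exp (t * I) - 1‖ := h8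
      _ ≤ a / 2 * t := by gcongr
  have ha0 : 0 ≤ a := by rw [ha]; positivity
  by_contra hne
  have hpos : 0 < ‖c k‖ := norm_pos_iff.2 hne
  have h5 := h4 (min 1 (‖c k‖ / (a + 1))) (by positivity) (min_le_left _ _)
  have h6 : a / 2 * min 1 (‖c k‖ / (a + 1)) ≤ a / 2 * (‖c k‖ / (a + 1)) := by
    gcongr
    exact min_le_right _ _
  have h7 : a / 2 * (‖c k‖ / (a + 1)) < ‖c k‖ := by
    rw [mul_div_assoc', div_lt_iff₀ (by positivity)]
    nlinarith
  linarith

end Pool.Agent.B5.E.H82
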