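import Mathlib

/-!
# MP_b5021c_nt, stage 3, chapter E1: one-variable lemmas (finding 3451)
-/

set_option autoImplicit false

open Complex

namespace Pool.Agent.B5.E.H82

/-- A point of the circle that turns `z` into `-‖z‖`. -/
theorem turn (z : ℂ) : ∃ w : ℂ, ‖w‖ = 1 ∧ z * w = -(‖z‖ : ℂ) := by
  by_cases hz : z = 0
  · exact ⟨1, by simp, by simp [hz]⟩
  · refine ⟨-((starRingEnd ℂ) z) / ‖z‖, ?_, ?_⟩
    · rw [norm_div, norm_neg, RCLike.norm_conj]
      simp [hz]
    · have h : ((‖z‖ : ℝ) : ℂ) ≠ 0 := by simpa using hz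
      rw [mul_div_assoc', mul_neg, Complex.mul_conj, Complex.normSq_eq_norm_sq, neg_div]
      push_cast
      field_simp

/-- (OV1) -/
theorem ov1 (a : ℝ) (D : ℂ) (h : ∀ w : ℂ, ‖w‖ = 1 → 0 ≤ a + 2 * (D * w).re) : ‖D‖ ≤ a / 2 := by
  obtain ⟨w, hw, e⟩ := turn D
  have := h w hw
  rw [e] at this
  simp at this
  linarith

/-- An `l`-th root on the circle. -/
theorem root (l : ℕ) (hl : 0 < l) (z : ℂ) (hz : ‖z‖ = 1) : ∃ w : ℂ, ‖w‖ = 1 ∧ w ^ l = z := by
  obtain ⟨w, hw⟩ := IsAlgClosed.exists_pow_nat_eq z hl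
  refine ⟨w, ?_, hw⟩
  have h : ‖w‖ ^ l = 1 := by rw [← norm_pow, hw, hz]
  exact (pow_eq_one_iff_of_nonneg (norm_nonneg _) hl.ne').1 h

/-- A point of the circle with `C * w ^ l = -‖C‖`. -/
theorem turn_pow (l : ℕ) (hl : 0 < l) (C : ℂ) : ∃ w : ℂ, ‖w‖ = 1 ∧ C * w ^ l = -(‖C‖ : ℂ) := by
  obtain ⟨v, hv, e⟩ := turn C
  obtain ⟨w, hw, e2⟩ := root l hl v hv
  exact ⟨w, hw, by rw [e2, e]⟩

/-- One of the `l` points (`l ≥ 3`). -/
theorem third (l : ℕ) (hl : 3 ≤ l) (z : ℂ) :
    ∃ w : ℂ, ‖w‖ = 1 ∧ w ^ l = 1 ∧ (z * w).re ≤ -(‖z‖ / 2) := by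
  have hl0 : (0 : ℝ) < l := by
    have : 0 < l := by omega
    exact_mod_cast this
  set ψ := arg z with hψ
  set k : ℤ := round ((Real.pi - ψ) * l / (2 * Real.pi)) with hk
  have hk1 : |(Real.pi - ψ) * l / (2 * Real.pi) - k| ≤ 1 / 2 := by
    rw [hk]
    exact abs_sub_round _
  set w : ℂ := Complex.exp (((2 * Real.pi * k / l : ℝ) : ℂ) * I) with hw
  refine ⟨w, by rw [hw, Complex.norm_exp_ofReal_mul_I], ?_, ?_⟩
  · rw [hw, ← Complex.exp_nat_mul]
    rw [Complex.exp_eq_one_iff]
    refine ⟨k, ?_⟩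
    push_cast
    have : (l : ℂ) ≠ 0 := by exact_mod_cast hl0.ne'
    field_simp
  · have h1 : z * w = (‖z‖ : ℂ) * Complex.exp (((ψ + 2 * Real.pi * k / l : ℝ) : ℂ) * I) := by
      conv_lhs => rw [← Complex.norm_mul_exp_arg_mul_I z]
      rw [hw, mul_assoc, ← Complex.exp_add, ← hψ]
      congr 2
      push_cast
      ring
    rw [h1, Complex.re_ofReal_mul, Complex.exp_ofReal_mul_I_re]
    set x := ψ + 2 * Real.pi * k / l with hx
    have h2 : |Real.pi - x| ≤ Real.pi / 3 := by
      have e : Real.pi - x = ((Real.pi - ψ) * l / (2 * Real.pi) - k) * (2 * Real.pi / l) := by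
        rw [hx]
        have := Real.pi_pos
        field_simp
        ring
      rw [e, abs_mul, abs_of_pos (show 0 < 2 * Real.pi / l by positivity)]
      calc |(Real.pi - ψ) * l / (2 * Real.pi) - k| * (2 * Real.pi / l)
          ≤ 1 / 2 * (2 * Real.pi / l) := by gcongr
        _ = Real.pi / l := by ring
        _ ≤ Real.pi / 3 := by
            have : (3 : ℝ) ≤ l := by exact_mod_cast hl
            have := Real.pi_pos
            gcongr
    have h3 : 1 / 2 ≤ Real.cos (Real.pi - x) := by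
      rw [← Real.cos_abs, ← Real.cos_pi_div_three]
      exact Real.cos_le_cos_of_nonneg_of_le_pi (abs_nonneg _)
        (by linarith [Real.pi_pos]) h2
    rw [Real.cos_pi_sub] at h3
    nlinarith [norm_nonneg z]

/-- (OV) the key inequality for the lower levels. -/
theorem ov (l : ℕ) (hl : 2 ≤ l) (ρ τ : ℝ) (hρ : 0 ≤ ρ) (hτ : 0 ≤ τ) (D C : ℂ)
    (hC : ‖C‖ = ρ * τ)
    (h : ∀ w : ℂ, ‖w‖ = 1 → 0 ≤ ρ ^ 2 + τ ^ 2 + 2 * (D * w).re + 2 * (C * w ^ l).re)
    (hne : ρ ≠ τ) : ‖D‖ < |ρ ^ 2 - τ ^ 2| := by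
  have hs : 0 < |ρ ^ 2 - τ ^ 2| := by
    rw [abs_pos]
    intro h0
    apply hne
    have : (ρ - τ) * (ρ + τ) = 0 := by linarith
    rcases mul_eq_zero.1 this with h1 | h1
    · linarith
    · linarith
  -- the degenerate case
  rcases eq_or_lt_of_le (mul_nonneg hρ hτ) with h0 | h0
  · have hC0 : C = 0 := by
      rw [← norm_eq_zero, hC, ← h0]
    have h1 : ‖D‖ ≤ (ρ ^ 2 + τ ^ 2) / 2 := by
      apply ov1
      intro w hw
      have := h w hw
      rw [hC0, zero_mul, Complex.zero_re, mul_zero, add_zero] at this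
      exact this
    have h2 : ρ ^ 2 + τ ^ 2 = |ρ ^ 2 - τ ^ 2| := by
      rcases mul_eq_zero.1 h0.symm with h3 | h3
      · rw [h3]
        norm_num
      · rw [h3]
        norm_num
    linarith
  · obtain ⟨w0, hw0, e0⟩ := turn_pow l (by omega) C
    rw [hC] at e0
    have hδ : 0 < (ρ - τ) ^ 2 := by
      have : ρ - τ ≠ 0 := sub_ne_zero.2 hne
      positivity
    have hρ0 : 0 < ρ := by
      rcases eq_or_lt_of_le hρ with h1 | h1
      · rw [← h1, zero_mul] at h0
        exact absurd h0 (lt_irrefl _)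
      · exact h1
    have hτ0 : 0 < τ := by
      rcases eq_or_lt_of_le hτ with h1 | h1
      · rw [← h1, mul_zero] at h0
        exact absurd h0 (lt_irrefl _)
      · exact h1
    rcases Nat.lt_or_ge l 3 with h3 | h3
    · -- `l = 2`
      have hl2 : l = 2 := by omega
      subst hl2
      set z := D * w0 with hz
      have hnz : ‖D‖ = ‖z‖ := by rw [hz, norm_mul, hw0, mul_one]
      have key : ∀ u : ℂ, ‖u‖ = 1 →
          0 ≤ ρ ^ 2 + τ ^ 2 + 2 * (z.re * u.re - z.im * u.im) -
            2 * (ρ * τ) * (u.re ^ 2 - u.im ^ 2) := by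
        intro u hu
        have h1 := h (w0 * u) (by rw [norm_mul, hw0, hu, one_mul])
        have h2 : C * (w0 * u) ^ 2 = -((ρ * τ : ℝ) : ℂ) * u ^ 2 := by
          rw [mul_pow, ← mul_assoc, e0]
        rw [h2, ← mul_assoc, ← hz, neg_mul, Complex.neg_re, Complex.re_ofReal_mul,
          Complex.mul_re] at h1
        have h4 : (u ^ 2).re = u.re ^ 2 - u.im ^ 2 := by
          rw [sq, Complex.mul_re]
          ring
        rw [h4] at h1
        linarith
      have hp1 := key 1 (by simp)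
      have hp2 := key (-1) (by simp)
      simp only [Complex.one_re, Complex.one_im, Complex.neg_re, Complex.neg_im] at hp1 hp2
      have hq : ∀ y : ℝ, -1 ≤ y → y ≤ 1 → 0 ≤ (ρ - τ) ^ 2 + 4 * (ρ * τ) * y ^ 2 - 2 * z.im * y := by
        intro y hy1 hy2
        have hx : 0 ≤ 1 - y ^ 2 := by nlinarith
        set x := Real.sqrt (1 - y ^ 2) with hxd
        have hx2 : x ^ 2 = 1 - y ^ 2 := Real.sq_sqrt hx
        have n1 : ‖(⟨x, y⟩ : ℂ)‖ = 1 := by
          rw [Complex.norm_def, Complex.normSq_mk, show x * x + y * y = 1 by nlinarith,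
            Real.sqrt_one]
        have n2 : ‖(⟨-x, y⟩ : ℂ)‖ = 1 := by
          rw [Complex.norm_def, Complex.normSq_mk, show -x * -x + y * y = 1 by nlinarith,
            Real.sqrt_one]
        have k1 := key ⟨x, y⟩ n1
        have k2 := key ⟨-x, y⟩ n2
        simp only at k1 k2
        nlinarith
      set p := z.re with hpd
      set q := z.im with hqd
      have hnorm : ‖z‖ ^ 2 = p ^ 2 + q ^ 2 := by
        rw [← Complex.normSq_eq_norm_sq, Complex.normSq_apply]
        ring
      set d := (ρ - τ) ^ 2 with hd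
      set s := (ρ + τ) ^ 2 with hsd
      have hds : (ρ ^ 2 - τ ^ 2) ^ 2 = d * s := by
        rw [hd, hsd]
        ring
      have h4 : 4 * (ρ * τ) = s - d := by
        rw [hd, hsd]
        ring
      have hp : p ^ 2 ≤ d ^ 2 / 4 := by
        have a1 : -d ≤ 2 * p := by
          rw [hd]
          nlinarith
        have a2 : 2 * p ≤ d := by
          rw [hd]
          nlinarith
        nlinarith
      have main : p ^ 2 + q ^ 2 < d * s := by
        rcases le_or_gt |q| (4 * (ρ * τ)) with h5 | h5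
        · -- use the vertex
          have h6 := hq (q / (4 * (ρ * τ))) (by
            rw [le_div_iff₀ (by positivity)]
            have := (abs_le.1 h5).1
            linarith) (by
            rw [div_le_one (by positivity)]
            exact (abs_le.1 h5).2)
          have h7 : (4 * (ρ * τ)) * (q / (4 * (ρ * τ))) ^ 2 - 2 * q * (q / (4 * (ρ * τ))) =
              -(q ^ 2 / (4 * (ρ * τ))) := by
            field_simp
            ring
          have h8 : q ^ 2 / (4 * (ρ * τ)) ≤ d := by linarith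
          rw [div_le_iff₀ (by positivity), h4] at h8
          nlinarith
        · have h6 := hq 1 (by norm_num) le_rfl
          have h7 := hq (-1) le_rfl (by norm_num)
          have h8 : |q| ≤ s / 2 := by
            rw [abs_le]
            constructor <;> nlinarith
          have h9 : s / 2 < d := by linarith
          have h10 : d < s := by
            have : 0 < 4 * (ρ * τ) := by positivity
            linarith
          have h11 : q ^ 2 ≤ s ^ 2 / 4 := by
            rw [← sq_abs]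
            nlinarith [abs_nonneg q]
          nlinarith
      have h12 : ‖z‖ ^ 2 < |ρ ^ 2 - τ ^ 2| ^ 2 := by
        rw [hnorm, sq_abs, hds]
        exact main
      rw [hnz]
      exact lt_of_pow_lt_pow_left₀ 2 (abs_nonneg _) h12
    · -- `l ≥ 3`
      obtain ⟨u, hu, hul, hre⟩ := third l h3 (D * w0)
      have h1 := h (w0 * u) (by rw [norm_mul, hw0, hu, one_mul])
      have h2 : C * (w0 * u) ^ l = -((ρ * τ : ℝ) : ℂ) := by
        rw [mul_pow, hul, mul_one, e0]
      rw [h2, ← mul_assoc, Complex.neg_re, Complex.ofReal_re] at h1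
      have hnz : ‖D * w0‖ = ‖D‖ := by rw [norm_mul, hw0, mul_one]
      rw [hnz] at hre
      have h4 : ‖D‖ ≤ (ρ - τ) ^ 2 := by nlinarith
      have h5 : (ρ - τ) ^ 2 < |ρ ^ 2 - τ ^ 2| := by
        have h6 : |ρ ^ 2 - τ ^ 2| = |ρ - τ| * (ρ + τ) := by
          rw [show ρ ^ 2 - τ ^ 2 = (ρ - τ) * (ρ + τ) by ring, abs_mul,
            abs_of_pos (show 0 < ρ + τ by linarith)]
        rw [h6, ← sq_abs, sq]
        have h7 : 0 < |ρ - τ| := abs_pos.2 (sub_ne_zero.2 hne)
        apply mul_lt_mul_of_pos_left _ h7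
        rw [abs_lt]
        constructor <;> linarith
      linarith

end Pool.Agent.B5.E.H82
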